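import Pool.Agent.Y701.PE.Kid2
import Pool.Agent.Y701.R1.Ram

/-!
Kida's formula for arbitrary Euler products over function fields of one variable over finite fields:
preparations. The lemmas on power sums and on the omission of Euler factors are those of the starting
modules `Pool.Agent.Y701.AV.Root`, `Pool.Agent.Y701.GV.Ex` and `Pool.Agent.Y701.AV.Trunc` (repeated
here to avoid long imports).
-/

set_option autoImplicit false
set_option linter.all false
set_option maxHeartbeats 4000000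

open FF Module

namespace Pool.Agent.V1173.KA

open Pool.Agent.W343.BSD Pool.Agent.Y701.QF
open Pool.Agent.Y701.PE (IsExp sub toC cc_toC pw_of)
open Pool.Agent.H123R3.ZT
open Polynomial

/-- `P = ∏ (1 - α_i T)` and `Q = ∏ (1 - α_i ^ f T)` for complex numbers `α_i`. -/
def IsPower (f : ℕ) (P Q : ℤ[X]) : Prop :=
  ∃ (n : ℕ) (α : Fin n → ℂ), P.map (Int.castRingHom ℂ) = ∏ i, (1 - C (α i) * X) ∧
    Q.map (Int.castRingHom ℂ) = ∏ i, (1 - C (α i ^ f) * X)

section exp

theorem isExp_of {a : ℕ → ℤ} {P : PowerSeries ℤ} (h0 : PowerSeries.constantCoeff P = 1)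
    (h : ∀ n, n ≠ 0 → PowerSeries.coeff n (pw (toC P)) = -(a n : ℂ)) : IsExp a P := by
  refine ⟨h0, fun n => ?_⟩
  have hc := cc_toC h0
  have h1 : pw (toC P) * toC P = theta (toC P) := pw_spec (by rw [hc]; exact one_ne_zero)
  have h2 := congrArg (PowerSeries.coeff n) h1
  rw [coeff_theta, PowerSeries.coeff_map, mul_comm, PowerSeries.coeff_mul,
    Finset.Nat.sum_antidiagonal_eq_sum_range_succ_mk, Finset.sum_range_succ, Nat.sub_self] at h2
  have h3 : PowerSeries.coeff 0 (pw (toC P)) = 0 := by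
    have h4 := congrArg (PowerSeries.coeff 0) h1
    rw [coeff_theta, Nat.cast_zero, zero_mul, PowerSeries.coeff_zero_eq_constantCoeff_apply, map_mul, hc,
      mul_one] at h4
    rw [PowerSeries.coeff_zero_eq_constantCoeff_apply]
    exact h4
  rw [h3, mul_zero, add_zero] at h2
  have h6 : (((n : ℤ) * PowerSeries.coeff n P : ℤ) : ℂ) =
      ((-∑ i ∈ Finset.range n, PowerSeries.coeff i P * a (n - i) : ℤ) : ℂ) := by
    push_cast
    rw [← Finset.sum_neg_distrib]
    have h7 : ((n : ℂ)) * (Int.castRingHom ℂ) (PowerSeries.coeff n P) = (n : ℂ) * ((PowerSeries.coeff n P : ℤ) : ℂ) := rfl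
    rw [← h7, ← h2]
    refine Finset.sum_congr rfl fun i hi => ?_
    rw [Finset.mem_range] at hi
    simp only [PowerSeries.coeff_map]
    rw [h (n - i) (by omega)]
    simp
  exact_mod_cast h6

theorem exp_zero : IsExp (fun _ => 0) 1 := by
  refine isExp_of (map_one _) fun n _ => ?_
  rw [map_one, pw_one]
  simp

theorem exists_exp {P : PowerSeries ℤ} (hP : PowerSeries.constantCoeff P = 1) :
    ∃ a : ℕ → ℤ, IsExp a P := by
  set J := PowerSeries.invOfUnit P 1 with hJ
  have h1 : P * J = 1 := PowerSeries.mul_invOfUnit P 1 (by rw [hP]; rfl)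
  set Θ : PowerSeries ℤ := PowerSeries.mk fun n => (n : ℤ) * PowerSeries.coeff n P with hΘ
  set A : PowerSeries ℤ := -(J * Θ) with hA
  have h2 : P * A = -Θ := by
    rw [hA, mul_neg, ← mul_assoc, h1, one_mul]
  have h3 : PowerSeries.coeff 0 A = 0 := by
    have h4 := congrArg PowerSeries.constantCoeff h2
    have h5 : PowerSeries.constantCoeff Θ = 0 := by
      rw [hΘ, ← PowerSeries.coeff_zero_eq_constantCoeff_apply, PowerSeries.coeff_mk]
      simp
    rw [map_mul, hP, one_mul, (map_neg PowerSeries.constantCoeff Θ), h5, neg_zero] at h4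
    rw [PowerSeries.coeff_zero_eq_constantCoeff_apply, h4]
  refine ⟨fun n => PowerSeries.coeff n A, hP, fun n => ?_⟩
  have h4 := congrArg (PowerSeries.coeff n) h2
  rw [PowerSeries.coeff_mul, Finset.Nat.sum_antidiagonal_eq_sum_range_succ_mk,
    Finset.sum_range_succ, Nat.sub_self, h3, mul_zero, add_zero, map_neg, hΘ,
    PowerSeries.coeff_mk] at h4
  rw [h4, neg_neg]

theorem exp_unique {a b : ℕ → ℤ} {P : PowerSeries ℤ} (ha : IsExp a P) (hb : IsExp b P) {m : ℕ}
    (hm : m ≠ 0) : a m = b m := by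
  have h1 := pw_of ha hm
  rw [pw_of hb hm] at h1
  have h2 := neg_injective h1
  exact_mod_cast h2.symm

theorem cc_root {n : ℕ} {α : Fin n → ℂ} {P : ℤ[X]}
    (h : P.map (Int.castRingHom ℂ) = ∏ i, (1 - C (α i) * X)) : P.coeff 0 = 1 := by
  have h1 := congrArg (Polynomial.eval 0) h
  rw [Polynomial.eval_prod] at h1
  simp only [eval_sub, eval_one, eval_mul, eval_C, eval_X, mul_zero, sub_zero,
    Finset.prod_const_one] at h1
  rw [← Polynomial.coeff_zero_eq_eval_zero, Polynomial.coeff_map] at h1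
  have h2 : ((P.coeff 0 : ℤ) : ℂ) = ((1 : ℤ) : ℂ) := by
    rw [Int.cast_one]; exact h1
  exact_mod_cast h2

theorem pw_root {n : ℕ} {α : Fin n → ℂ} {P : ℤ[X]}
    (h : P.map (Int.castRingHom ℂ) = ∏ i, (1 - C (α i) * X)) {m : ℕ} (hm : m ≠ 0) :
    PowerSeries.coeff m (pw (toC (P : PowerSeries ℤ))) = -∑ i, α i ^ m := by
  have h1 : toC (P : PowerSeries ℤ) = ∏ i, (1 - PowerSeries.C (α i) * PowerSeries.X ^ 1) := by
    have h2 : toC (P : PowerSeries ℤ) =
        ((P.map (Int.castRingHom ℂ) : ℂ[X]) : PowerSeries ℂ) := by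
      rw [Polynomial.polynomial_map_coe]
    rw [h2, h]
    have h3 := map_prod (Polynomial.coeToPowerSeries.ringHom (R := ℂ))
      (fun i => (1 - C (α i) * X : ℂ[X])) Finset.univ
    have h4 : ∀ q : ℂ[X], (Polynomial.coeToPowerSeries.ringHom (R := ℂ)) q =
      (q : PowerSeries ℂ) := fun q => rfl
    rw [h4] at h3
    rw [h3]
    refine Finset.prod_congr rfl fun i _ => ?_
    rw [map_sub, map_one, map_mul, h4, h4, Polynomial.coe_C, Polynomial.coe_X, pow_one]
  rw [h1, pw_prod]
  · rw [map_sum, ← Finset.sum_neg_distrib]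
    refine Finset.sum_congr rfl fun i _ => ?_
    rw [coeff_pw_lin one_ne_zero _ hm, if_pos (one_dvd m), Nat.div_one, Nat.cast_one, one_mul]
  · intro i _
    simp

theorem exp_of_power {f : ℕ} (hf : f ≠ 0) {P Q : ℤ[X]} (h : IsPower f P Q) {a : ℕ → ℤ}
    (ha : IsExp a (P : PowerSeries ℤ)) : IsExp (fun m => a (f * m)) (Q : PowerSeries ℤ) := by
  obtain ⟨n, α, h1, h2⟩ := h
  refine isExp_of ?_ ?_
  · rw [← PowerSeries.coeff_zero_eq_constantCoeff_apply, Polynomial.coeff_coe, cc_root h2]
  · intro m hm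
    have hfm : f * m ≠ 0 := Nat.mul_ne_zero hf hm
    rw [pw_root h2 hm, ← pw_of ha hfm, pw_root h1 hfm]
    congr 1
    exact Finset.sum_congr rfl fun i _ => (pow_mul _ _ _).symm

end exp

section split

variable {k F : Type} [Field k] [Finite k] [Field F] [Algebra k F] [FF.IsFF k F]

theorem cc_coe {P : ℤ[X]} (hP : P.coeff 0 = 1) :
    PowerSeries.constantCoeff (P : PowerSeries ℤ) = 1 := by
  rw [← PowerSeries.coeff_zero_eq_constantCoeff_apply, Polynomial.coeff_coe, hP]

/-- omitting finitely many Euler factors -/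
theorem euler_split {P : Place k F → ℤ[X]} (hP : ∀ v, (P v).coeff 0 = 1)
    (Z : Place k F → Prop) [DecidablePred Z] (T : Finset (Place k F)) (hT : ∀ v, Z v ↔ v ∈ T) :
    eulerProd (fun v : Place k F => v.deg) (fun v => sub v.deg (P v : PowerSeries ℤ)) =
      eulerProd (fun v : Place k F => v.deg)
        (fun v => sub v.deg ((if Z v then 1 else P v : ℤ[X]) : PowerSeries ℤ)) *
      ((∏ v ∈ T, expand ℤ v.deg (P v) : ℤ[X]) : PowerSeries ℤ) := by
  classical
  have hfin : ∀ n, {v : Place k F | v.deg ≤ n}.Finite := fun n => places_fin n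
  have hd : ∀ v : Place k F, v.deg ≠ 0 := fun w => (Pool.Agent.H525R3.FFp.deg_pos w).ne'
  have hg : ∀ v : Place k F, (PowerSeries.X : PowerSeries ℤ) ^ v.deg ∣
      ((if Z v then expand ℤ v.deg (P v) else 1 : ℤ[X]) : PowerSeries ℤ) - 1 := by
    intro v
    split_ifs with h
    · rw [← Pool.Agent.Y701.PE.sub_poly (hd v)]
      exact Pool.Agent.Y701.PE.sub_mod (hd v) (cc_coe (hP v))
    · rw [Polynomial.coe_one, sub_self]
      exact dvd_zero _
  have hf : ∀ v : Place k F, (PowerSeries.X : PowerSeries ℤ) ^ v.deg ∣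
      sub v.deg ((if Z v then 1 else P v : ℤ[X]) : PowerSeries ℤ) - 1 := by
    intro v
    apply Pool.Agent.Y701.PE.sub_mod (hd v)
    split_ifs with h
    · rw [Polynomial.coe_one, map_one]
    · exact cc_coe (hP v)
  have h1 : ((∏ v ∈ T, expand ℤ v.deg (P v) : ℤ[X]) : PowerSeries ℤ) =
      eulerProd (fun v : Place k F => v.deg)
        (fun v => ((if Z v then expand ℤ v.deg (P v) else 1 : ℤ[X]) : PowerSeries ℤ)) := by
    rw [eulerProd_of_finset hfin hg T]
    · have h3 := map_prod (Polynomial.coeToPowerSeries.ringHom (R := ℤ))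
        (fun v : Place k F => expand ℤ v.deg (P v)) T
      refine h3.trans (Finset.prod_congr rfl fun v hv => ?_)
      rw [if_pos ((hT v).2 hv)]
      rfl
    · intro v hv
      rw [if_neg fun h => hv ((hT v).1 h), Polynomial.coe_one]
  rw [h1, ← eulerProd_mul hfin hf hg]
  congr 1
  funext v
  split_ifs with h
  · rw [Polynomial.coe_one, Pool.Agent.Y701.PE.sub_poly (hd v)]
    have h2 : sub v.deg (1 : PowerSeries ℤ) = 1 := by
      rw [Pool.Agent.Y701.PE.sub_eq (hd v), map_one]
    rw [h2, one_mul]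
  · rw [Polynomial.coe_one, mul_one]

end split

end Pool.Agent.V1173.KA
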