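import Pool.Agent.V1173.KA.Base

/-!
Kida's formula for arbitrary Euler products: the exact formula.
-/

set_option autoImplicit false
set_option linter.all false
set_option maxHeartbeats 4000000

open FF Module

namespace Pool.Agent.V1173.KA

open Pool.Agent.W343.BSD Pool.Agent.Y701.QF
open Pool.Agent.Y701.PE (IsExp sub toC cc_toC pw_of)
open Pool.Agent.H123R3.ZT
open Polynomial

/-- the multiplicity modulo `l` of the zero `q ^ (-c)` of `A` -/
noncomputable def mu (l : ℕ) [Fact l.Prime] (q c : ℕ) (A : ℤ[X]) : ℕ :=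
  (A.map (Int.castRingHom (ZMod l))).rootMultiplicity (((q : ℕ) : ZMod l) ^ c)⁻¹

theorem mu_mul {l : ℕ} [Fact l.Prime] (q c : ℕ) {A B : ℤ[X]} (hA : A.coeff 0 = 1)
    (hB : B.coeff 0 = 1) : mu l q c (A * B) = mu l q c A + mu l q c B := by
  unfold mu
  rw [Polynomial.map_mul, rm_mul _ (Pool.Agent.Y701.PE.map_ne_of_coeff hA)
    (Pool.Agent.Y701.PE.map_ne_of_coeff hB)]

theorem coeff_prod {ι : Type*} (s : Finset ι) {A : ι → ℤ[X]} (hA : ∀ i ∈ s, (A i).coeff 0 = 1) :
    (∏ i ∈ s, A i).coeff 0 = 1 := by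
  rw [coeff_zero_eq_eval_zero, eval_prod]
  refine Finset.prod_eq_one fun i hi => ?_
  rw [← coeff_zero_eq_eval_zero, hA i hi]

theorem mu_prod {l : ℕ} [Fact l.Prime] (q c : ℕ) {ι : Type*} (s : Finset ι) {A : ι → ℤ[X]}
    (hA : ∀ i ∈ s, (A i).coeff 0 = 1) : mu l q c (∏ i ∈ s, A i) = ∑ i ∈ s, mu l q c (A i) := by
  classical
  induction s using Finset.induction_on with
  | empty =>
    rw [Finset.prod_empty, Finset.sum_empty]
    unfold mu
    rw [Polynomial.map_one]
    exact Polynomial.rootMultiplicity_eq_zero (by simp)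
  | insert i s hi ih =>
    rw [Finset.prod_insert hi, Finset.sum_insert hi,
      mu_mul q c (hA i (Finset.mem_insert_self i s))
        (coeff_prod s fun j hj => hA j (Finset.mem_insert_of_mem hj)),
      ih fun j hj => hA j (Finset.mem_insert_of_mem hj)]

section kida

variable {k K k' L : Type} [Field k] [Finite k] [Field K] [Algebra k K] [FF.IsFF k K]
  [Field k'] [Finite k'] [Field L] [Algebra k' L] [Algebra k k'] [Algebra k L] [Algebra K L]
  [IsScalarTower k K L] [IsScalarTower k k' L] [FF.IsFF k L] [FF.IsFF k' L]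
  [FiniteDimensional K L] [IsGalois K L]

theorem kida_all (hconst : ∀ a : K, IsAlgebraic k a → a ∈ (algebraMap k K).range)
    {l s : ℕ} [hl : Fact l.Prime] (hlk : (l : k) ≠ 0) (hn : finrank K L = l ^ s)
    {S : Place k K → Finset (Place k L)} {e f : Place k K → ℕ}
    (D : ∀ v, GaloisFiber v (S v) (e v) (f v))
    (B : Finset (Place k K)) (hB : ∀ v, v ∉ B → e v = 1)
    {P : Place k K → ℤ[X]} {P' : Place k' L → ℤ[X]}
    {a : Place k K → ℕ → ℤ} {a' : Place k' L → ℕ → ℤ}
    (hP : ∀ v, IsExp (a v) (P v : PowerSeries ℤ))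
    (hP' : ∀ w, IsExp (a' w) (P' w : PowerSeries ℤ))
    (haa : ∀ (v : Place k K) (w : Place k L) (n f : ℕ), Over w v n → w.deg = v.deg * f →
      ∀ m, m ≠ 0 → a' (upPlace w) m = a v (f * m))
    {Λ Λ' : PowerSeries ℤ}
    (hK : Λ * eulerProd (fun v : Place k K => v.deg)
      (fun v => sub v.deg (P v : PowerSeries ℤ)) = 1)
    (hL : Λ' * eulerProd (fun w : Place k' L => w.deg)
      (fun w => sub w.deg (P' w : PowerSeries ℤ)) = 1)
    {U V R W : ℤ[X]} (hV : V.coeff 0 = 1)
    (hU : Λ * (V : PowerSeries ℤ) = (U : PowerSeries ℤ)) (c : ℕ) (hW : W.coeff 0 = 1)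
    (hR : Λ' * (W : PowerSeries ℤ) = (R : PowerSeries ℤ)) :
    finrank k k' * mu l (Nat.card k') c R + finrank K L * mu l (Nat.card k) c V =
      finrank k k' * mu l (Nat.card k') c W + finrank K L * mu l (Nat.card k) c U +
        ∑ v ∈ B, (finrank K L - finrank K L / e v) *
          mu l (Nat.card k) c (expand ℤ v.deg (P v)) := by
  classical
  have : FiniteDimensional k k' := Module.Finite.of_finite
  have hr : finrank k k' ≠ 0 := finrank_pos.ne'
  obtain ⟨i, hi⟩ := constants_pow (L := L) hconst hn hr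
  have hq0 := card_ne_zero_mod (k := k) hlk
  set q : ZMod l := ((Nat.card k : ℕ) : ZMod l) with hq
  have hdK : ∀ v : Place k K, v.deg ≠ 0 := fun w => (Pool.Agent.H525R3.FFp.deg_pos w).ne'
  have hdL : ∀ v : Place k L, v.deg ≠ 0 := fun w => (Pool.Agent.H525R3.FFp.deg_pos w).ne'
  -- the Euler products modulo `l`
  set g : Place k K → PowerSeries (ZMod l) :=
    fun v => redL l (sub v.deg (P v : PowerSeries ℤ)) with hg
  set g' : Place k L → PowerSeries (ZMod l) :=
    fun w => redL l (sub w.deg (P' (upPlace w) : PowerSeries ℤ)) with hg'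
  have hg1 : ∀ v, (PowerSeries.X : PowerSeries (ZMod l)) ^ v.deg ∣ g v - 1 := by
    intro v
    have h := map_dvd (redL l) (Pool.Agent.Y701.PE.sub_mod (hdK v) (hP v).1)
    rwa [map_sub, map_one, map_pow, PowerSeries.map_X] at h
  have hg1' : ∀ w, (PowerSeries.X : PowerSeries (ZMod l)) ^ w.deg ∣ g' w - 1 := by
    intro w
    have h := map_dvd (redL l) (Pool.Agent.Y701.PE.sub_mod (hdL w) (hP' (upPlace w)).1)
    rwa [map_sub, map_one, map_pow, PowerSeries.map_X] at h
  have hgg : ∀ v, ∀ w ∈ S v, g' w = g v ^ f v := by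
    intro v w hw
    obtain ⟨j, hj⟩ := fiber_pow (D v) hn
    have h1 := Pool.Agent.Y701.PE.dwork (l := l) (i := j) (hP v) (hP' (upPlace w)) (by
      intro n hn0
      rw [← hj]
      exact haa v w _ (f v) ((D v).isOver w hw) ((D v).deg w hw) n hn0)
    rw [← hj] at h1
    have hf0 : f v ≠ 0 := by
      rw [hj]
      exact pow_ne_zero _ hl.out.ne_zero
    show redL l (sub w.deg (P' (upPlace w) : PowerSeries ℤ)) =
      redL l (sub v.deg (P v : PowerSeries ℤ)) ^ f v
    rw [(D v).deg w hw, ← Pool.Agent.Y701.PE.sub_sub _ _ (hdK v) hf0,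
      Pool.Agent.Y701.PE.map_sub', h1, Pool.Agent.Y701.PE.sub_pow' (hdK v),
      Pool.Agent.Y701.PE.map_sub']
  have hK1 : redL l Λ * eulerProd (fun v : FF.Place k K => v.deg) g = 1 := by
    have h := congrArg (redL l) hK
    rwa [map_mul, map_one, map_eulerProd (fun n => places_fin n)] at h
  have hLk : PowerSeries.expand (finrank k k') hr Λ' *
      eulerProd (fun w : Place k L => w.deg)
        (fun w => sub w.deg (P' (upPlace w) : PowerSeries ℤ)) = 1 := by
    rw [Pool.Agent.Y701.PE.euler_down (P' := fun w => (P' w : PowerSeries ℤ)) hr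
      fun w => (hP' w).1, ← map_mul, hL, map_one]
  have hL1 : redL l (PowerSeries.expand (finrank k k') hr Λ') *
      eulerProd (fun v : FF.Place k L => v.deg) g' = 1 := by
    have h := congrArg (redL l) hLk
    rwa [map_mul, map_one, map_eulerProd (fun n => places_fin n)] at h
  set Q0 : ℤ[X] := expand ℤ (finrank k k') R with hQ0
  set W0 : ℤ[X] := expand ℤ (finrank k k') W with hW0
  have hQ : redL l (PowerSeries.expand (finrank k k') hr Λ') *
      ((W0.map (Int.castRingHom (ZMod l)) : (ZMod l)[X]) : PowerSeries (ZMod l)) =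
      ((Q0.map (Int.castRingHom (ZMod l)) : (ZMod l)[X]) : PowerSeries (ZMod l)) := by
    rw [← redL_poly, ← redL_poly, ← map_mul, hW0, hQ0, Pool.Agent.W343.BSD.coe_expand _ hr,
      Pool.Agent.W343.BSD.coe_expand _ hr, ← map_mul, hR]
  have hWne : W0.map (Int.castRingHom (ZMod l)) ≠ 0 := Pool.Agent.Y701.PE.map_ne_of_coeff (by
    rw [hW0, Pool.Agent.Y701.PE.coeff_zero_expand (Nat.pos_of_ne_zero hr), hW])
  have hexact := Pool.Agent.Y701.PE.kida_mult
    (a := fun v => (expand ℤ v.deg (P v)).map (Int.castRingHom (ZMod l)))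
    (b := fun v => (1 : (ZMod l)[X]))
    (U := U.map (Int.castRingHom (ZMod l))) (V := V.map (Int.castRingHom (ZMod l)))
    hn D B hB hg1 hg1' hgg hK1 hL1 (Pool.Agent.Y701.PE.map_ne_of_coeff hV) (by
      have h := congrArg (redL l) hU
      rwa [map_mul, redL_poly, redL_poly] at h) hWne hQ
    (fun v hv => one_ne_zero)
    (fun v hv => by
      rw [← redL_poly, ← Pool.Agent.Y701.PE.sub_poly (hdK v), hg, Polynomial.coe_one, mul_one])
    (q ^ c)⁻¹
  have hex : ExpChar (ZMod l) l := inferInstance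
  have hcard : (((Nat.card k' : ℕ) : ZMod l) ^ c)⁻¹ = (q ^ c)⁻¹ := by
    rw [Module.natCard_eq_pow_finrank (K := k) (V := k')]
    push_cast
    rw [← hq, hi, ZMod.pow_card_pow]
  have hexp : ∀ A : ℤ[X], ((expand ℤ (finrank k k') A).map
      (Int.castRingHom (ZMod l))).rootMultiplicity (q ^ c)⁻¹ =
      finrank k k' * mu l (Nat.card k') c A := by
    intro A
    unfold mu
    rw [Polynomial.map_expand, hcard, hi, Polynomial.rootMultiplicity_expand_pow, ZMod.pow_card_pow]
  have h1 : (1 : (ZMod l)[X]).rootMultiplicity (q ^ c)⁻¹ = 0 :=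
    Polynomial.rootMultiplicity_eq_zero (by simp)
  rw [hQ0, hexp, hW0, hexp] at hexact
  simp only [h1, mul_zero, Finset.sum_const_zero, add_zero] at hexact
  rw [hn]
  exact hexact

end kida

end Pool.Agent.V1173.KA
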