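import Pool.Agent.V1173.KA.Trunc
import Pool.Agent.TH943.KD.Kd

/-!
Kida's formula for arbitrary Euler products: the order of vanishing, and the central value of a
symmetric Euler factor.
-/

set_option autoImplicit false
set_option linter.all false
set_option maxHeartbeats 4000000

open FF Module

namespace Pool.Agent.V1173.KA

open Pool.Agent.W343.BSD
open Polynomial

variable {l : ℕ} [hl : Fact l.Prime]

theorem order_le_mu {q b : ℕ} (hq : ((q : ℕ) : ZMod l) ≠ 0) {R : ℤ[X]}
    (hR : R.map (Int.castRingHom (ZMod l)) ≠ 0) :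
    (R.map (Int.castRingHom ℚ)).rootMultiplicity ((q : ℚ) ^ b)⁻¹ ≤ mu l q b R := by
  have hq0 : q ≠ 0 := by
    rintro rfl
    exact hq Nat.cast_zero
  obtain ⟨r, hr⟩ : ∃ r, r = (R.map (Int.castRingHom ℚ)).rootMultiplicity ((q : ℚ) ^ b)⁻¹ := ⟨_, rfl⟩
  obtain ⟨G, hG⟩ := Pool.Agent.TH943.KD.dvd_of_mult (q := q ^ b) (pow_ne_zero _ hq0)
    (G := R) (r := r) (by
      rw [hr]
      push_cast
      rfl)
  have e1 : R.map (Int.castRingHom (ZMod l)) =
      (1 - C (((q : ℕ) : ZMod l) ^ b) * X) ^ r * G.map (Int.castRingHom (ZMod l)) := by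
    conv_lhs => rw [hG]
    rw [Polynomial.map_mul, Polynomial.map_pow, Polynomial.map_sub, Polynomial.map_one,
      Polynomial.map_mul, Polynomial.map_C, Polynomial.map_X]
    congr 5
    simp
  have hlin : (1 - C (((q : ℕ) : ZMod l) ^ b) * X : (ZMod l)[X]) ≠ 0 := by
    intro h
    have h1 := congrArg (Polynomial.eval 0) h
    simp at h1
  rw [← hr]
  unfold mu
  rw [e1] at hR ⊢
  rw [rm_mul _ (left_ne_zero_of_mul hR) (right_ne_zero_of_mul hR), rm_pow _ hlin,
    rm_linear (pow_ne_zero b hq), mul_one]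
  exact Nat.le_add_right _ _

/-- the value at `1 / q` of a polynomial with the functional equation of an abelian variety of
dimension `g` over the field with `q` elements -/
theorem eval_central {q g : ℕ} (hq : ((q : ℕ) : ZMod l) ≠ 0) {P : ℤ[X]}
    (hdeg : P.natDegree ≤ 2 * g)
    (hsym : ∀ i ≤ g, P.coeff (2 * g - i) = (q : ℤ) ^ (g - i) * P.coeff i) :
    ((q : ℕ) : ZMod l) ^ g * (P.map (Int.castRingHom (ZMod l))).eval ((q : ℕ) : ZMod l)⁻¹ =
      ((P.eval 1 : ℤ) : ZMod l) := by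
  set x : ZMod l := ((q : ℕ) : ZMod l) with hx
  have h1 : (P.map (Int.castRingHom (ZMod l))).eval x⁻¹ =
      ∑ i ∈ Finset.range (2 * g + 1), ((P.coeff i : ℤ) : ZMod l) * (x⁻¹) ^ i := by
    rw [Polynomial.eval_map, Polynomial.eval₂_eq_sum_range' _ (Nat.lt_succ_of_le hdeg)]
    rfl
  have h2 : ((P.eval 1 : ℤ) : ZMod l) =
      ∑ i ∈ Finset.range (2 * g + 1), ((P.coeff (2 * g - i) : ℤ) : ZMod l) := by
    rw [Polynomial.eval_eq_sum_range' (Nat.lt_succ_of_le hdeg)]
    have h3 := Finset.sum_flip (n := 2 * g) fun i => ((P.coeff i : ℤ) : ZMod l)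
    rw [h3]
    push_cast
    simp
  rw [h1, h2, Finset.mul_sum]
  refine Finset.sum_congr rfl fun i hi => ?_
  have hi' : i ≤ 2 * g := by
    have := Finset.mem_range.1 hi
    omega
  by_cases hig : i ≤ g
  · rw [hsym i hig]
    push_cast
    rw [← hx]
    have h4 : x ^ g * x⁻¹ ^ i = x ^ (g - i) := by
      obtain ⟨j, rfl⟩ := Nat.exists_eq_add_of_le hig
      rw [pow_add, Nat.add_sub_cancel_left, mul_comm (x ^ i), mul_assoc, ← mul_pow,
        mul_inv_cancel₀ hq, one_pow, mul_one]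
    rw [← h4]
    ring
  · have hj : 2 * g - i ≤ g := by omega
    have h3 := hsym (2 * g - i) hj
    rw [show 2 * g - (2 * g - i) = i by omega] at h3
    rw [h3]
    push_cast
    rw [← hx]
    obtain ⟨m, hm⟩ := Nat.exists_eq_add_of_le (show g ≤ i by omega)
    have h4 : x ^ g * (x ^ (g - (2 * g - i)) * x⁻¹ ^ i) = 1 := by
      have h5 : g - (2 * g - i) = m := by omega
      rw [h5, ← mul_assoc, ← pow_add, ← hm, ← mul_pow, mul_inv_cancel₀ hq, one_pow]
    linear_combination ((P.coeff (2 * g - i) : ℤ) : ZMod l) * h4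

end Pool.Agent.V1173.KA
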