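import Pool.Agent.V1173.KA.Kida

/-!
Kida's formula for arbitrary Euler products, with arbitrary Euler factors over a finite set of places.
-/

set_option autoImplicit false
set_option linter.all false
set_option maxHeartbeats 4000000

open FF Module

namespace Pool.Agent.V1173.KA

open Pool.Agent.W343.BSD Pool.Agent.Y701.QF
open Pool.Agent.Y701.PE (IsExp sub toC cc_toC pw_of)
open Pool.Agent.H123R3.ZT
open Polynomial

/-- The place `w` of `L` lies over the place `v` of `K`, with the ramification index `e`. The fields of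
constants `k` and `k'` may be different. -/
def LiesOver {k K k' L : Type} [Field k] [Field K] [Algebra k K] [Field k'] [Field L]
    [Algebra k' L] [Algebra K L] (w : Place k' L) (v : Place k K) (e : ℕ) : Prop :=
  0 < e ∧ ∀ f : K, w.ord (algebraMap K L f) = e * v.ord f

section kida

variable {k K k' L : Type} [Field k] [Finite k] [Field K] [Algebra k K] [FF.IsFF k K]
  [Field k'] [Finite k'] [Field L] [Algebra k' L] [Algebra k k'] [Algebra k L] [Algebra K L]
  [IsScalarTower k K L] [IsScalarTower k k' L] [FF.IsFF k L] [FF.IsFF k' L]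
  [FiniteDimensional K L] [IsGalois K L]

theorem over_down {w : Place k' L} {v : Place k K} {e : ℕ} (h : LiesOver w v e) :
    Over (downPlace (k := k) w) v e := ⟨h.1, h.2⟩

theorem lies_up {w : Place k L} {v : Place k K} {e : ℕ} (h : Over w v e) :
    LiesOver (upPlace (k' := k') w) v e := ⟨h.1, h.2⟩

theorem card_res (v : Place k K) : Nat.card (S.Res v) = Nat.card k ^ v.deg :=
  Module.natCard_eq_pow_finrank (K := k) (V := v.RF)

open Classical in
theorem kida_T (hconst : ∀ a : K, IsAlgebraic k a → a ∈ (algebraMap k K).range)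
    {l s : ℕ} [hl : Fact l.Prime] (hlk : (l : k) ≠ 0) (hn : finrank K L = l ^ s)
    {St : Place k K → Finset (Place k L)} {e f : Place k K → ℕ}
    (D : ∀ v, GaloisFiber v (St v) (e v) (f v))
    (B : Finset (Place k K)) (hB : ∀ v, v ∉ B → e v = 1)
    {P : Place k K → ℤ[X]} {P' : Place k' L → ℤ[X]} (hP : ∀ v, (P v).coeff 0 = 1)
    (hP' : ∀ w, (P' w).coeff 0 = 1) (T : Finset (Place k K))
    (hext : ∀ (v : Place k K) (w : Place k' L) (e f : ℕ), v ∉ T →
      LiesOver w v e → Nat.card (S.Res w) = Nat.card (S.Res v) ^ f →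
      IsPower f (P v) (P' w))
    (TL : Finset (Place k' L))
    (hTL : ∀ w, w ∈ TL ↔ ∃ v ∈ T, ∃ e : ℕ, LiesOver w v e)
    {Λ Λ' : PowerSeries ℤ}
    (hK : Λ * eulerProd (fun v : Place k K => v.deg)
      (fun v => sub v.deg (P v : PowerSeries ℤ)) = 1)
    (hL : Λ' * eulerProd (fun w : Place k' L => w.deg)
      (fun w => sub w.deg (P' w : PowerSeries ℤ)) = 1)
    {U V R W : ℤ[X]} (hU0 : U.coeff 0 = 1) (hV : V.coeff 0 = 1)
    (hU : Λ * (V : PowerSeries ℤ) = (U : PowerSeries ℤ)) (c : ℕ) (hR0 : R.coeff 0 = 1)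
    (hW : W.coeff 0 = 1) (hR : Λ' * (W : PowerSeries ℤ) = (R : PowerSeries ℤ)) :
    finrank k k' * (mu l (Nat.card k') c R +
        ∑ w ∈ TL, mu l (Nat.card k') c (expand ℤ w.deg (P' w))) +
      finrank K L * mu l (Nat.card k) c V =
      finrank k k' * mu l (Nat.card k') c W + finrank K L * (mu l (Nat.card k) c U +
        ∑ v ∈ T, mu l (Nat.card k) c (expand ℤ v.deg (P v))) +
        ∑ v ∈ B, (finrank K L - finrank K L / e v) *
          (if v ∈ T then 0 else mu l (Nat.card k) c (expand ℤ v.deg (P v))) := by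
  classical
  have hdK : ∀ v : Place k K, 0 < v.deg := fun w => Pool.Agent.H525R3.FFp.deg_pos w
  have hdL : ∀ v : Place k' L, 0 < v.deg := fun w => Pool.Agent.H525R3.FFp.deg_pos w
  have hfin : Module.Finite k k' := Module.Finite.of_finite
  have huniq : ∀ (v v1 : Place k K) (w : Place k' L) (e e1 : ℕ),
      LiesOver w v e → LiesOver w v1 e1 → v = v1 := fun v v1 w e e1 h1 h2 =>
    over_unique_base (over_down h1) (over_down h2)
  set E : ℤ[X] := ∏ v ∈ T, expand ℤ v.deg (P v) with hE
  set E' : ℤ[X] := ∏ w ∈ TL, expand ℤ w.deg (P' w) with hE'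
  have s1 := euler_split hP (fun v => v ∈ T) T fun v => Iff.rfl
  have s2 := euler_split hP' (fun w => w ∈ TL) TL fun w => Iff.rfl
  rw [← hE] at s1
  rw [← hE'] at s2
  have cc1 : ∀ v : Place k K, PowerSeries.constantCoeff
      ((if v ∈ T then 1 else P v : ℤ[X]) : PowerSeries ℤ) = 1 := by
    intro v
    split_ifs
    · rw [Polynomial.coe_one, map_one]
    · exact cc_coe (hP v)
  have cc2 : ∀ w : Place k' L, PowerSeries.constantCoeff
      ((if w ∈ TL then 1 else P' w : ℤ[X]) : PowerSeries ℤ) = 1 := by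
    intro v
    split_ifs
    · rw [Polynomial.coe_one, map_one]
    · exact cc_coe (hP' v)
  choose a ha using fun v => exists_exp (cc1 v)
  choose a' ha' using fun w => exists_exp (cc2 w)
  have hKt : Λ * (E : PowerSeries ℤ) * eulerProd (fun v : Place k K => v.deg)
      (fun v => sub v.deg ((if v ∈ T then 1 else P v : ℤ[X]) : PowerSeries ℤ)) = 1 := by
    rw [mul_assoc, mul_comm (E : PowerSeries ℤ), ← s1, hK]
  have hLt : Λ' * (E' : PowerSeries ℤ) * eulerProd (fun w : Place k' L => w.deg)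
      (fun w => sub w.deg ((if w ∈ TL then 1 else P' w : ℤ[X]) : PowerSeries ℤ)) = 1 := by
    rw [mul_assoc, mul_comm (E' : PowerSeries ℤ), ← s2, hL]
  have hUt : Λ * (E : PowerSeries ℤ) * (V : PowerSeries ℤ) = ((U * E : ℤ[X]) : PowerSeries ℤ) := by
    rw [Polynomial.coe_mul, ← hU]
    ring
  have hRt : Λ' * (E' : PowerSeries ℤ) * (W : PowerSeries ℤ) =
      ((R * E' : ℤ[X]) : PowerSeries ℤ) := by
    rw [Polynomial.coe_mul, ← hR]
    ring
  have haa : ∀ (v : Place k K) (w : Place k L) (n f : ℕ), Over w v n → w.deg = v.deg * f →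
      ∀ m, m ≠ 0 → a' (upPlace w) m = a v (f * m) := by
    intro v w n f h1 hd m hm
    have hdw : 0 < w.deg := Pool.Agent.H525R3.FFp.deg_pos w
    have hf0 : f ≠ 0 := by
      rintro rfl
      rw [mul_zero] at hd
      omega
    have h2 : LiesOver (upPlace (k' := k') w) v n := lies_up h1
    by_cases hv : v ∈ T
    · have hw : upPlace (k' := k') w ∈ TL := (hTL _).2 ⟨v, hv, n, h2⟩
      have g1 := ha v
      have g2 := ha' (upPlace (k' := k') w)
      rw [if_pos hv, Polynomial.coe_one] at g1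
      rw [if_pos hw, Polynomial.coe_one] at g2
      rw [exp_unique g2 exp_zero hm, exp_unique g1 exp_zero (Nat.mul_ne_zero hf0 hm)]
    · have hw : upPlace (k' := k') w ∉ TL := by
        intro h
        obtain ⟨v1, hv1, e1, h3⟩ := (hTL _).1 h
        exact hv (huniq v v1 _ _ _ h2 h3 ▸ hv1)
      have g1 := ha v
      have g2 := ha' (upPlace (k' := k') w)
      rw [if_neg hv] at g1
      rw [if_neg hw] at g2
      refine exp_unique g2 (exp_of_power hf0 (hext v _ n f hv h2 ?_) g1) hm
      rw [card_res, card_res]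
      have h4 : w.deg = finrank k k' * (upPlace (k' := k') w).deg :=
        deg_down (k := k) (upPlace (k' := k') w)
      rw [Module.natCard_eq_pow_finrank (K := k) (V := k'), ← pow_mul, ← h4, hd, pow_mul]
  have hmain := kida_all (k' := k') hconst hlk hn D B hB
    (P := fun v => if v ∈ T then 1 else P v) (P' := fun w => if w ∈ TL then 1 else P' w)
    ha ha' haa hKt hLt hV hUt c hW hRt
  have hEc : ∀ v ∈ T, (expand ℤ v.deg (P v)).coeff 0 = 1 := fun v _ => by
    rw [Pool.Agent.Y701.PE.coeff_zero_expand (hdK v), hP v]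
  have hEc' : ∀ w ∈ TL, (expand ℤ w.deg (P' w)).coeff 0 = 1 := fun w _ => by
    rw [Pool.Agent.Y701.PE.coeff_zero_expand (hdL w), hP' w]
  rw [mu_mul _ _ hR0 (coeff_prod _ hEc'), mu_mul _ _ hU0 (coeff_prod _ hEc),
    mu_prod _ _ _ hEc, mu_prod _ _ _ hEc'] at hmain
  rw [hmain]
  congr 1
  refine Finset.sum_congr rfl fun v _ => ?_
  congr 1
  have h1 : (1 : (ZMod l)[X]).rootMultiplicity (((Nat.card k : ℕ) : ZMod l) ^ c)⁻¹ = 0 :=
    Polynomial.rootMultiplicity_eq_zero (by simp)
  by_cases h : v ∈ T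
  · simp only [if_pos h, map_one]
    unfold mu
    rw [Polynomial.map_one]
    exact h1
  · simp only [if_neg h]

/-- the local multiplicity is positive if and only if the local factor vanishes -/
theorem mu_expand_eq_zero {l : ℕ} [hl : Fact l.Prime] (q c : ℕ) {d : ℕ} {A : ℤ[X]} (hd : 0 < d)
    (hA : A.coeff 0 = 1) : mu l q c (expand ℤ d A) = 0 ↔
      (A.map (Int.castRingHom (ZMod l))).eval (((q ^ d : ℕ) : ZMod l) ^ c)⁻¹ ≠ 0 := by
  unfold mu
  rw [Polynomial.rootMultiplicity_eq_zero_iff, Polynomial.map_expand, Polynomial.IsRoot.def,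
    Polynomial.expand_eval]
  have h1 : ((((q : ℕ) : ZMod l) ^ c)⁻¹) ^ d = (((q ^ d : ℕ) : ZMod l) ^ c)⁻¹ := by
    rw [inv_pow, ← pow_mul, mul_comm c d, pow_mul]
    push_cast
    rfl
  rw [h1]
  have h2 : (expand (ZMod l) d) (A.map (Int.castRingHom (ZMod l))) ≠ 0 := by
    rw [← Polynomial.map_expand]
    exact Pool.Agent.Y701.PE.map_ne_of_coeff (by
      rw [Pool.Agent.Y701.PE.coeff_zero_expand hd, hA])
  constructor
  · intro h h3
    exact h2 (h h3)
  · intro h h3
    exact absurd h3 h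

end kida

end Pool.Agent.V1173.KA
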